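import Mathlib

namespace Pool.Agent.Results.MP_bedf46_an.OscillatingAttractor

/-- A site is a pair `(i, j)` with column `i : ℤ` and row `j : ℤˣ`, i.e. `j = 1` or `j = -1`. -/
abbrev Site := ℤ × ℤˣ

/-- A configuration: a map from sites to `{0, 1}`. -/
abbrev Config := Site → Bool

/-- Majority of three bits. -/
def maj (a b c : Bool) : Bool := (a && b) || (a && c) || (b && c)

/-- The 2-line voting. -/
def F (y : Config) : Config := fun v =>
  maj (y (v.1 - 2 * (v.2 : ℤ), v.2)) (y (v.1 - (v.2 : ℤ), v.2)) (y (v.1, -v.2))

/-- The trajectory (space-time array) of `s`. -/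
def TR (s : Config) : Site × ℕ → Bool := fun p => (F^[p.2] s) p.1

/-- Two arrays are finite perturbations of each other. -/
def FinPert {α : Type} (x y : α → Bool) : Prop := {p | x p ≠ y p}.Finite

/-- Attractors. -/
def IsAttractor (s : Config) : Prop :=
  ∀ s' : Config, FinPert s s' → FinPert (TR s) (TR s')

lemma maj_ne {a b c x : Bool} (h : maj a b c ≠ x) :
    (a ≠ x ∧ b ≠ x) ∨ (a ≠ x ∧ c ≠ x) ∨ (b ≠ x ∧ c ≠ x) := by
  revert h; revert a b c x; decide

lemma F_const (b : Bool) : F (fun _ => b) = fun _ => b := by
  funext v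
  simp [F, maj]

lemma F_iter_const (b : Bool) (t : ℕ) : F^[t] (fun _ => b) = fun _ => b := by
  induction t with
  | zero => rfl
  | succ n ih => rw [Function.iterate_succ_apply', ih, F_const]

lemma unit_abs (j : ℤˣ) : (j : ℤ) = 1 ∨ (j : ℤ) = -1 := by
  rcases Int.units_eq_one_or j with h | h <;> simp [h]

/-- Locality: radius of dependence at most `2` per step. -/
lemma local_agree (t : ℕ) : ∀ (y y' : Config) (i : ℤ),
    (∀ i' : ℤ, |i' - i| ≤ 2 * t → ∀ j, y (i', j) = y' (i', j)) →
    ∀ j, (F^[t] y) (i, j) = (F^[t] y') (i, j) := by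
  induction t with
  | zero =>
    intro y y' i h j
    exact h i (by simp) j
  | succ n ih =>
    intro y y' i h j
    rw [Function.iterate_succ_apply', Function.iterate_succ_apply']
    have key : ∀ i' : ℤ, |i' - i| ≤ 2 → ∀ j, (F^[n] y) (i', j) = (F^[n] y') (i', j) := by
      intro i' hi' j'
      apply ih
      intro i'' hi''
      apply h
      have : |i'' - i| ≤ |i'' - i'| + |i' - i| := by
        have := abs_add_le (i'' - i') (i' - i)
        simpa using this
      push_cast
      linarith
    have hj := unit_abs j
    simp only [F]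
    rw [key _ _ j, key _ _ j, key _ _ (-j)]
    · simp
    · rcases hj with hj | hj <;> simp [hj]
    · rcases hj with hj | hj <;> simp [hj]

/-- Erosion: content of `|i| < L` is erased by constant surroundings in `3 * L` steps. -/
lemma erode_phase1 (b : Bool) (L : ℕ) (y : Config)
    (h : ∀ i : ℤ, (L : ℤ) ≤ |i| → ∀ j, y (i, j) = b) (t : ℕ) :
    ∀ i : ℤ, ((F^[t] y) (i, 1) ≠ b → -(L : ℤ) + t < i ∧ i < L + t) ∧
      ((F^[t] y) (i, -1) ≠ b → -(L : ℤ) - t < i ∧ i < L - t) := by
  induction t with
  | zero =>
    intro i
    constructor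
    · intro hi
      have : ¬ (L : ℤ) ≤ |i| := fun hL => hi (h i hL 1)
      push Not at this
      have := abs_lt.1 this
      constructor <;> simp <;> linarith [this.1, this.2]
    · intro hi
      have : ¬ (L : ℤ) ≤ |i| := fun hL => hi (h i hL (-1))
      push Not at this
      have := abs_lt.1 this
      constructor <;> simp <;> linarith [this.1, this.2]
  | succ n ih =>
    intro i
    rw [Function.iterate_succ_apply']
    constructor
    · intro hi
      have := maj_ne hi
      simp only [Units.val_one, mul_one] at this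
      have h2 := (ih (i - 2)).1
      have h1 := (ih (i - 1)).1
      have h0 := (ih i).2
      push_cast
      rcases this with ⟨ha, hb⟩ | ⟨ha, hb⟩ | ⟨ha, hb⟩
      · have := h2 ha; have := h1 hb; constructor <;> omega
      · have := h2 ha; have := h0 hb; constructor <;> omega
      · have := h1 ha; have := h0 hb; constructor <;> omega
    · intro hi
      have := maj_ne hi
      simp only [Units.val_neg, Units.val_one, neg_neg, mul_neg, mul_one, sub_neg_eq_add] at this
      have h2 := (ih (i + 2)).2
      have h1 := (ih (i + 1)).2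
      have h0 := (ih i).1
      push_cast
      rcases this with ⟨ha, hb⟩ | ⟨ha, hb⟩ | ⟨ha, hb⟩
      · have := h2 ha; have := h1 hb; constructor <;> omega
      · have := h2 ha; have := h0 hb; constructor <;> omega
      · have := h1 ha; have := h0 hb; constructor <;> omega

lemma erode_phase2 (b : Bool) (L : ℕ) (y : Config)
    (h : ∀ i : ℤ, (L : ℤ) ≤ |i| → ∀ j, y (i, j) = b) (t : ℕ) :
    ∀ i : ℤ, ((F^[L + t] y) (i, 1) ≠ b → 2 * (t : ℤ) < i ∧ i < 2 * L + t) ∧
      ((F^[L + t] y) (i, -1) ≠ b → -(2 * (L : ℤ)) - t < i ∧ i < - 2 * t) := by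
  induction t with
  | zero =>
    intro i
    have := erode_phase1 b L y h L i
    simp only [add_zero]
    constructor
    · intro hi; have := this.1 hi; constructor <;> push_cast <;> omega
    · intro hi; have := this.2 hi; constructor <;> push_cast <;> omega
  | succ n ih =>
    intro i
    rw [← add_assoc, Function.iterate_succ_apply']
    constructor
    · intro hi
      have := maj_ne hi
      simp only [Units.val_one, mul_one] at this
      have h2 := (ih (i - 2)).1
      have h1 := (ih (i - 1)).1
      have h0 := (ih i).2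
      push_cast
      rcases this with ⟨ha, hb⟩ | ⟨ha, hb⟩ | ⟨ha, hb⟩
      · have := h2 ha; have := h1 hb; constructor <;> omega
      · have := h2 ha; have := h0 hb; constructor <;> omega
      · have := h1 ha; have := h0 hb; constructor <;> omega
    · intro hi
      have := maj_ne hi
      simp only [Units.val_neg, Units.val_one, neg_neg, mul_neg, mul_one, sub_neg_eq_add] at this
      have h2 := (ih (i + 2)).2
      have h1 := (ih (i + 1)).2
      have h0 := (ih i).1
      push_cast
      rcases this with ⟨ha, hb⟩ | ⟨ha, hb⟩ | ⟨ha, hb⟩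
      · have := h2 ha; have := h1 hb; constructor <;> omega
      · have := h2 ha; have := h0 hb; constructor <;> omega
      · have := h1 ha; have := h0 hb; constructor <;> omega

lemma erode (b : Bool) (L : ℕ) (y : Config)
    (h : ∀ i : ℤ, (L : ℤ) ≤ |i| → ∀ j, y (i, j) = b) :
    F^[3 * L] y = fun _ => b := by
  have key := erode_phase2 b L y h (2 * L)
  have e : L + 2 * L = 3 * L := by ring
  rw [e] at key
  funext v
  obtain ⟨i, j⟩ := v
  by_contra hne
  rcases Int.units_eq_one_or j with hj | hj
  · subst hj
    have := (key i).1 hne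
    push_cast at this
    omega
  · subst hj
    have := (key i).2 hne
    push_cast at this
    omega

/-- Erosion inside a constant shell `L ≤ |i| < L'`. -/
lemma erode_shell (b : Bool) (L L' : ℕ) (y : Config)
    (h : ∀ i : ℤ, (L : ℤ) ≤ |i| → |i| < L' → ∀ j, y (i, j) = b) :
    ∀ i : ℤ, |i| + 6 * L < L' → ∀ j, (F^[3 * L] y) (i, j) = b := by
  intro i hi j
  classical
  let y' : Config := fun v => if |v.1| < (L' : ℤ) then y v else b
  have e1 : F^[3 * L] y' = fun _ => b := by
    apply erode
    intro i hi j
    simp only [y']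
    split_ifs with hlt
    · exact h i hi hlt j
    · rfl
  have e2 : (F^[3 * L] y) (i, j) = (F^[3 * L] y') (i, j) := by
    apply local_agree
    intro i' hi' j'
    have : |i'| < (L' : ℤ) := by
      have := abs_add_le (i' - i) i
      simp only [sub_add_cancel] at this
      push_cast at hi'
      linarith
    simp [y', this]
  rw [e2, e1]

/-- The configuration: constant on the shells `100 ^ k ≤ |i| < 100 ^ (k + 1)`, with value
alternating with the parity of `k`. -/
def s₀ : Config := fun v => decide (Even (Nat.log 100 v.1.natAbs))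

lemma s₀_shell (k : ℕ) (i : ℤ) (h1 : ((100 ^ k : ℕ) : ℤ) ≤ |i|)
    (h2 : |i| < ((100 ^ (k + 1) : ℕ) : ℤ)) (j : ℤˣ) : s₀ (i, j) = decide (Even k) := by
  have e : |i| = (i.natAbs : ℤ) := (Int.natCast_natAbs i).symm
  rw [e] at h1 h2
  have h1' : 100 ^ k ≤ i.natAbs := by exact_mod_cast h1
  have h2' : i.natAbs < 100 ^ (k + 1) := by exact_mod_cast h2
  have hpos : i.natAbs ≠ 0 := by
    have : 0 < 100 ^ k := by positivity
    omega
  have : Nat.log 100 i.natAbs = k := by
    rw [Nat.log_eq_iff]
    · exact ⟨h1', h2'⟩
    · right; exact ⟨by norm_num, hpos⟩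
  simp [s₀, this]

theorem result : ∃ s : Config, IsAttractor s ∧
    (∀ (t : ℕ) (b : Bool), ¬ FinPert (F^[t] s) (fun _ => b)) ∧
    (∀ (v : Site) (b : Bool), ∃ᶠ t in Filter.atTop, (F^[t] s) v = b) := by
  refine ⟨s₀, ?_, ?_, ?_⟩
  · -- attractor
    intro s' hs'
    -- find k with all differences in `|i| < 100 ^ k`
    obtain ⟨k, hk⟩ : ∃ k : ℕ, ∀ i : ℤ, ((100 ^ k : ℕ) : ℤ) ≤ |i| → ∀ j, s₀ (i, j) = s' (i, j) := by
      have hb : BddAbove ((fun v : Site => v.1.natAbs) '' {p | s₀ p ≠ s' p}) :=
        (hs'.image _).bddAbove
      obtain ⟨B, hB⟩ := hb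
      refine ⟨B + 1, ?_⟩
      intro i hi j
      by_contra hne
      have h1 : i.natAbs ≤ B := hB ⟨(i, j), hne, rfl⟩
      have h2 : B + 1 < 100 ^ (B + 1) := Nat.lt_pow_self (by norm_num)
      have e : |i| = (i.natAbs : ℤ) := (Int.natCast_natAbs i).symm
      rw [e] at hi
      have : 100 ^ (B + 1) ≤ i.natAbs := by exact_mod_cast hi
      omega
    set L : ℕ := 100 ^ k with hL
    have hL' : 100 ^ (k + 1) = 100 * L := by rw [hL, pow_succ]; ring
    have hLpos : 0 < L := by positivity
    have hshell : ∀ i : ℤ, (L : ℤ) ≤ |i| → |i| < ((100 * L : ℕ) : ℤ) → ∀ j,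
        s₀ (i, j) = decide (Even k) := by
      intro i h1 h2 j
      rw [← hL'] at h2
      exact s₀_shell k i h1 h2 j
    have hshell' : ∀ i : ℤ, (L : ℤ) ≤ |i| → |i| < ((100 * L : ℕ) : ℤ) → ∀ j,
        s' (i, j) = decide (Even k) := by
      intro i h1 h2 j
      rw [← hk i h1 j]
      exact hshell i h1 h2 j
    have hT : F^[3 * L] s₀ = F^[3 * L] s' := by
      funext v
      obtain ⟨i, j⟩ := v
      by_cases hi : |i| + 6 * L < ((100 * L : ℕ) : ℤ)
      · rw [erode_shell _ L (100 * L) s₀ hshell i hi j, erode_shell _ L (100 * L) s' hshell' i hi j]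
      · apply local_agree
        intro i' hi' j'
        apply hk
        push Not at hi
        have := abs_add_le (i - i') i'
        simp only [sub_add_cancel] at this
        rw [abs_sub_comm] at this
        push_cast at hi hi' ⊢
        have : (0 : ℤ) < L := by exact_mod_cast hLpos
        linarith
    have hTt : ∀ t, 3 * L ≤ t → F^[t] s₀ = F^[t] s' := by
      intro t ht
      obtain ⟨m, rfl⟩ := Nat.exists_eq_add_of_le ht
      rw [add_comm, Function.iterate_add_apply, Function.iterate_add_apply, hT]
    -- the differences lie in a finite box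
    have hfin : (((Set.Icc (-(7 * (L : ℤ))) (7 * L)) ×ˢ (Set.univ : Set ℤˣ)) ×ˢ
        Set.Iio (3 * L) : Set (Site × ℕ)).Finite :=
      ((Set.finite_Icc _ _).prod Set.finite_univ).prod (Set.finite_Iio _)
    refine hfin.subset ?_
    rintro ⟨⟨i, j⟩, t⟩ hne
    replace hne : (F^[t] s₀) (i, j) ≠ (F^[t] s') (i, j) := hne
    have ht : t < 3 * L := by
      by_contra hcon
      push Not at hcon
      exact hne (by rw [hTt t hcon])
    have hi : |i| ≤ 7 * L := by
      by_contra hcon
      push Not at hcon
      apply hne
      apply local_agree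
      intro i' hi' j'
      apply hk
      have := abs_add_le (i - i') i'
      simp only [sub_add_cancel] at this
      rw [abs_sub_comm] at this
      have ht' : (t : ℤ) < 3 * L := by exact_mod_cast ht
      linarith
    have := abs_le.1 hi
    simp only [Set.mem_prod, Set.mem_Icc, Set.mem_univ, and_true, Set.mem_Iio]
    exact ⟨this, ht⟩
  · -- no iterate is a finite perturbation of a constant
    intro t b hfin
    -- for large k of the right parity the site `50 * 100 ^ k` carries the other value
    have hinf : Set.Infinite {v : Site | (F^[t] s₀) v ≠ b} := by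
      -- injective map from ℕ
      let f : ℕ → Site := fun m => (50 * 100 ^ (2 * (m + t) + (if b then 1 else 0)), 1)
      have hf : Function.Injective f := by
        intro m m' hmm
        have h1 : (50 * 100 ^ (2 * (m + t) + (if b then 1 else 0)) : ℤ) =
          50 * 100 ^ (2 * (m' + t) + (if b then 1 else 0)) := congrArg Prod.fst hmm
        have h2 : (100 : ℤ) ^ (2 * (m + t) + (if b then 1 else 0)) =
          100 ^ (2 * (m' + t) + (if b then 1 else 0)) := by linarith
        have h3 := pow_right_injective₀ (by norm_num : (0 : ℤ) < 100) (by norm_num) h2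
        omega
      refine (Set.infinite_range_of_injective hf).mono ?_
      rintro _ ⟨m, rfl⟩
      set k := 2 * (m + t) + (if b then 1 else 0) with hk
      have hkt : t ≤ k := by omega
      have hval : decide (Even k) ≠ b := by
        cases b
        · have : Even k := by simp [hk]
          simp [this]
        · have : ¬ Even k := by
            rw [Nat.not_even_iff_odd]
            exact ⟨m + t, by simp [hk]⟩
          simp [this]
      have hbig : (t : ℤ) < 100 ^ k := by
        have : t < 100 ^ k := lt_of_le_of_lt hkt (Nat.lt_pow_self (by norm_num))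
        exact_mod_cast this
      have hpow : (100 : ℤ) ^ (k + 1) = 100 * 100 ^ k := by rw [pow_succ]; ring
      have : (F^[t] s₀) (50 * 100 ^ k, 1) = (F^[t] (fun _ => decide (Even k))) (50 * 100 ^ k, 1) := by
        apply local_agree
        intro i' hi' j'
        have hx := abs_le.1 hi'
        have hi'pos : 0 < i' := by linarith
        apply s₀_shell
        · rw [abs_of_pos hi'pos]; push_cast; linarith
        · rw [abs_of_pos hi'pos]; push_cast; rw [hpow]; linarith
      show (F^[t] s₀) (f m) ≠ b
      simp only [f]
      rw [← hk, this, F_iter_const]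
      exact hval
    exact hinf hfin
  · -- both values occur infinitely often at every site
    intro v b
    obtain ⟨i, j⟩ := v
    rw [Filter.frequently_atTop]
    intro T
    set k := 2 * (T + i.natAbs) + (if b then 0 else 1) with hk
    have hval : decide (Even k) = b := by
      cases b
      · have : ¬ Even k := by
          rw [Nat.not_even_iff_odd]
          exact ⟨T + i.natAbs, by simp [hk]⟩
        simp [this]
      · have : Even k := by simp [hk]
        simp [this]
    have hbig : k < 100 ^ k := Nat.lt_pow_self (by norm_num)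
    refine ⟨3 * 100 ^ k, by omega, ?_⟩
    have hsh := erode_shell (decide (Even k)) (100 ^ k) (100 ^ (k + 1)) s₀
      (fun i h1 h2 j => s₀_shell k i h1 h2 j) i
    have hi : |i| + 6 * ((100 ^ k : ℕ) : ℤ) < ((100 ^ (k + 1) : ℕ) : ℤ) := by
      have e : |i| = (i.natAbs : ℤ) := (Int.natCast_natAbs i).symm
      have h1 : i.natAbs < 100 ^ k := by omega
      have h2 : |i| < ((100 ^ k : ℕ) : ℤ) := by rw [e]; exact_mod_cast h1
      have h3 : ((100 ^ (k + 1) : ℕ) : ℤ) = 100 * ((100 ^ k : ℕ) : ℤ) := by
        push_cast; rw [pow_succ]; ring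
      rw [h3]
      linarith
    rw [hsh hi j, hval]

end Pool.Agent.Results.MP_bedf46_an.OscillatingAttractor
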